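import Pool.Agent.H51.ERA.Base
import Pool.Agent.H51.ERA.Stmts

/-!
Module PER of board `era` (MP_e0047e_lc): windows determine the period.
-/

set_option autoImplicit false

namespace Pool.Agent.H51.ERA

theorem per_dvd {a b q q' n : ℕ} (ha : 1 ≤ a) (han : 2 * a ≤ n) (hq : n ≤ q) (hq' : n ≤ q')
    (h : ∀ j < n, ((q - 1 - j) % a = 0 → (q' - 1 - j) % b = 0)) : b ∣ a := by
  have hj : (q - 1) % a < a := Nat.mod_lt _ ha
  have h1 : a ∣ q - 1 - (q - 1) % a := Nat.dvd_sub_mod _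
  have h2 : a ∣ q - 1 - ((q - 1) % a + a) := by
    have h3 := Nat.dvd_sub h1 (dvd_refl a)
    rwa [Nat.sub_sub] at h3
  have h3 := Nat.dvd_of_mod_eq_zero (h _ (by omega) (Nat.mod_eq_zero_of_dvd h1))
  have h4 := Nat.dvd_of_mod_eq_zero (h _ (by omega) (Nat.mod_eq_zero_of_dvd h2))
  have h5 := Nat.dvd_sub h3 h4
  have h6 : q' - 1 - (q - 1) % a - (q' - 1 - ((q - 1) % a + a)) = a := by omega
  rwa [h6] at h5

/-- PER -/
theorem per_thm : PERStmt := by
  intro a b q q' n ha hb han hbn hq hq' h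
  exact Nat.dvd_antisymm
    (per_dvd hb hbn hq' hq (fun j hj => (h j hj).2))
    (per_dvd ha han hq hq' (fun j hj => (h j hj).1))

end Pool.Agent.H51.ERA
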