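import Pool.Agent.H51.ERA.Base
import Pool.Agent.H51.ERA.Stmts

/-!
Module TLN of board `era` (MP_e0047e_lc): elementary facts on the words Tw.
-/

set_option autoImplicit false

namespace Pool.Agent.H51.ERA

theorem tln_seg_length (s t : ℕ) (b : ℕ → Bool) (ν : Node) : (seg s t b ν).length = gg s t := by
  unfold seg
  rw [List.length_map, List.length_range]

theorem tln_count_ops (z : List Ent) : (z.map Ltr.op).count Ltr.dd = 0 := by
  rw [List.count_eq_zero]
  intro h
  obtain ⟨a, -, ha⟩ := List.mem_map.1 h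
  cases ha

theorem tln_count_cls (z : List Ent) : (z.map Ltr.cl).count Ltr.dd = 0 := by
  rw [List.count_eq_zero]
  intro h
  obtain ⟨a, -, ha⟩ := List.mem_map.1 h
  cases ha

/-- one bracket segment around a balanced word -/
theorem tln_wrap (z : List Ent) (M : List Ltr) (hrun : ∀ σ, run M σ = some σ)
    (hc : M.countP IsOp = M.countP IsCl) (hv : vs M = []) :
    (z.map Ltr.op ++ (M ++ z.reverse.map Ltr.cl)).length = 2 * z.length + M.length ∧
    (∀ σ, run (z.map Ltr.op ++ (M ++ z.reverse.map Ltr.cl)) σ = some σ) ∧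
    (z.map Ltr.op ++ (M ++ z.reverse.map Ltr.cl)).countP IsOp =
      (z.map Ltr.op ++ (M ++ z.reverse.map Ltr.cl)).countP IsCl ∧
    vs (z.map Ltr.op ++ (M ++ z.reverse.map Ltr.cl)) = [] ∧
    (z.map Ltr.op ++ (M ++ z.reverse.map Ltr.cl)).count Ltr.dd = M.count Ltr.dd := by
  refine ⟨?_, ?_, ?_, ?_, ?_⟩
  · simp only [List.length_append, List.length_map, List.length_reverse]
    omega
  · intro σ
    refine run_comp (run_ops z σ) (run_comp (hrun _) ?_)
    exact run_cls z.reverse σ
  · rw [List.countP_append, List.countP_append, List.countP_append, List.countP_append,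
      countP_ops, countP_ops', countP_cls, countP_cls', List.length_reverse, hc]
    omega
  · rw [vs_append, vs_append, vs_ops, vs_cls, hv]
    rfl
  · rw [List.count_append, List.count_append, tln_count_ops, tln_count_cls]
    omega

/-- TLN -/
theorem tln_thm : TLNStmt := by
  intro s t b i h
  induction h with
  | zero =>
    intro p m
    have hx : ∃ x : Ltr, (if m = 0 then Ltr.ee else Ltr.dd) = x ∧ (∀ σ, run [x] σ = some σ) ∧
        [x].countP IsOp = [x].countP IsCl ∧ vs [x] = [] ∧ [x].count Ltr.dd = min m 1 := by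
      by_cases hm : m = 0
      · refine ⟨Ltr.ee, by rw [if_pos hm], fun σ => rfl, rfl, rfl, ?_⟩
        rw [hm]
        rfl
      · refine ⟨Ltr.dd, by rw [if_neg hm], fun σ => rfl, rfl, rfl, ?_⟩
        rw [Nat.min_eq_right (Nat.one_le_iff_ne_zero.2 hm)]
        rfl
    obtain ⟨x, hx0, hx1, hx2, hx3, hx4⟩ := hx
    obtain ⟨w1, w2, w3, w4, w5⟩ := tln_wrap (seg s t b (i, p)) [x] hx1 hx2 hx3
    have hT : Tw s t b i 0 p m = (seg s t b (i, p)).map Ltr.op ++
        ([x] ++ (seg s t b (i, p)).reverse.map Ltr.cl) := by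
      rw [← hx0]
      rfl
    rw [hT]
    refine ⟨?_, w2, w3, w4, ?_⟩
    · rw [w1, tln_seg_length]
      rfl
    · rw [w5, hx4, pow_zero]
  | succ h ih =>
    intro p m
    obtain ⟨a1, a2, a3, a4, a5⟩ := ih (false :: p) (min m (2 ^ h))
    obtain ⟨b1, b2, b3, b4, b5⟩ := ih (true :: p) (m - 2 ^ h)
    have hT : Tw s t b i (h + 1) p m = (seg s t b (i, p)).map Ltr.op ++
        ((Tw s t b i h (false :: p) (min m (2 ^ h)) ++ Tw s t b i h (true :: p) (m - 2 ^ h)) ++
          (seg s t b (i, p)).reverse.map Ltr.cl) := rfl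
    obtain ⟨w1, w2, w3, w4, w5⟩ := tln_wrap (seg s t b (i, p))
      (Tw s t b i h (false :: p) (min m (2 ^ h)) ++ Tw s t b i h (true :: p) (m - 2 ^ h))
      (fun σ => run_comp (a2 σ) (b2 σ))
      (by rw [List.countP_append, List.countP_append, a3, b3])
      (by rw [vs_append, a4, b4]; rfl)
    rw [hT]
    refine ⟨?_, w2, w3, w4, ?_⟩
    · rw [w1, tln_seg_length, List.length_append, a1, b1]
      show 2 * gg s t + (tl s t h + tl s t h) = 2 * gg s t + 2 * tl s t h
      omega
    · rw [w5, List.count_append, a5, b5]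
      have h2 : 2 ^ (h + 1) = 2 ^ h + 2 ^ h := by rw [pow_succ]; omega
      rw [h2]
      omega

end Pool.Agent.H51.ERA
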