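import Pool.Agent.H51.ERA.Base
import Pool.Agent.H51.ERA.Stmts

/-!
Module UNQ of board `era` (MP_e0047e_lc): codes are injective.
-/

set_option autoImplicit false

namespace Pool.Agent.H51.ERA

/-- the part of `enc` after the block number -/
def unq_m (o : Option Bool) : Fin 4 :=
  match o with
  | some true => 1
  | some false => 0
  | none => 2

theorem unq_m_inj {o o' : Option Bool} (h : unq_m o = unq_m o') : o = o' := by
  rcases o with _ | _ | _ <;> rcases o' with _ | _ | _ <;>
    first
    | rfl
    | (exfalso; revert h; decide)

theorem unq_enc_lt (i : ℕ) (p : List Bool) (x : ℕ) (h : x < i) : enc (i, p) x = 1 := by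
  unfold enc
  rw [if_pos h]

theorem unq_enc_eq (i : ℕ) (p : List Bool) : enc (i, p) i = 0 := by
  unfold enc
  rw [if_neg (lt_irrefl i), if_pos rfl]

theorem unq_enc_gt (i : ℕ) (p : List Bool) (n : ℕ) : enc (i, p) (i + 1 + n) = unq_m p[n]? := by
  unfold enc
  have h1 : ¬ (i + 1 + n < i) := by omega
  have h2 : ¬ (i + 1 + n = i) := by omega
  have h3 : i + 1 + n - i - 1 = n := by omega
  show (if i + 1 + n < i then (1 : Fin 4) else if i + 1 + n = i then 0 else
    match p[i + 1 + n - i - 1]? with
    | some true => 1
    | some false => 0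
    | none => 2) = _
  rw [if_neg h1, if_neg h2, h3]
  rfl

theorem unq_enc_of_code (s t : ℕ) (ν ν' : Node) (h : code s t ν = code s t ν') (x : ℕ)
    (hx : x + 1 < ll s t) : enc ν x = enc ν' x := by
  unfold code at h
  have h1 := List.reverse_injective h
  have h2 : lab s t ν (lam s + t + x) = lab s t ν' (lam s + t + x) := by
    have h3 := congrArg (fun l => l[x]?) h1
    have hlt : x < (List.range' (lam s + t) (ll s t)).length := by
      rw [List.length_range']
      omega
    have h4 : (List.range' (lam s + t) (ll s t))[x]? = some (lam s + t + x) := by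
      rw [List.getElem?_eq_getElem hlt, List.getElem_range']
      congr 1
      omega
    have h5 : ((List.range' (lam s + t) (ll s t)).map (lab s t ν))[x]? =
        ((List.range' (lam s + t) (ll s t)).map (lab s t ν'))[x]? := h3
    rw [List.getElem?_map, List.getElem?_map, h4] at h5
    exact Option.some.inj h5
  have h3 := congrArg Prod.snd h2
  unfold lab at h3
  have h4 : ¬ (lam s + t + x + 1 = gg s t) := by
    unfold gg
    omega
  have h5 : lam s + t ≤ lam s + t + x := by omega
  have h6 : lam s + t + x - (lam s + t) = x := by omega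
  simp only [if_neg h4, if_pos h5, h6] at h3
  exact h3

/-- UNQ -/
theorem unq_thm : UNQStmt := by
  intro s t i i' p p' hp hp' h
  have hll : kk s + DD t + 2 < ll s t := by
    unfold ll
    omega
  have hpi : i < kk s := hp.1
  have hpi' : i' < kk s := hp'.1
  have hpl : p.length ≤ DD t := hp.2
  have hpl' : p'.length ≤ DD t := hp'.2
  have hii : i = i' := by
    rcases lt_trichotomy i i' with h1 | h1 | h1
    · exfalso
      have h2 := unq_enc_of_code s t (i, p) (i', p') h i (by omega)
      rw [unq_enc_eq, unq_enc_lt i' p' i h1] at h2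
      exact absurd h2 (by decide)
    · exact h1
    · exfalso
      have h2 := unq_enc_of_code s t (i, p) (i', p') h i' (by omega)
      rw [unq_enc_eq, unq_enc_lt i p i' h1] at h2
      exact absurd h2 (by decide)
  subst hii
  refine ⟨rfl, ?_⟩
  apply List.ext_getElem?
  intro n
  by_cases hn : n ≤ DD t
  · have h2 := unq_enc_of_code s t (i, p) (i, p') h (i + 1 + n) (by omega)
    rw [unq_enc_gt, unq_enc_gt] at h2
    exact unq_m_inj h2
  · rw [List.getElem?_eq_none (by omega), List.getElem?_eq_none (by omega)]

end Pool.Agent.H51.ERA
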