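import Pool.Agent.H51.ERA.Base
import Pool.Agent.H51.ERA.Stmts

/-!
Module WLEN of board `era` (MP_e0047e_lc): length of W, all nodes are inside.
-/

set_option autoImplicit false

namespace Pool.Agent.H51.ERA

theorem wlen_lo (s t i : ℕ) (p : List Bool) : nn s t ≤ lo s t i p := by
  induction p with
  | nil =>
    show nn s t ≤ nn s t + i * tl s t (DD t)
    omega
  | cons c p ih =>
    show nn s t ≤ lo s t i p + gg s t + (if c then tl s t (DD t - (p.length + 1)) else 0)
    omega

theorem wlen_flat (hTLN : TLNStmt) (s t : ℕ) (b : ℕ → Bool) (n : ℕ) :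
    ((List.range n).flatMap
      (fun i => Tw s t b i (DD t) [] (if i = 0 then Fb t b else 0))).length =
      n * tl s t (DD t) := by
  induction n with
  | zero => simp
  | succ n ih =>
    rw [List.range_succ, List.flatMap_append, List.length_append, ih, List.flatMap_singleton,
      (hTLN s t b n (DD t) [] _).1]
    ring

/-- WLEN -/
theorem wlen_thm (hSUB : SUBStmt) (hTLN : TLNStmt) : WLENStmt := by
  intro s t b
  refine ⟨?_, fun i p hp => ⟨wlen_lo s t i p, ?_⟩⟩
  · have h1 : (WW s t b).length = ((vpart s t b).map Ltr.vl).length + (Bpart s t b).length := by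
      show ((vpart s t b).map Ltr.vl ++ Bpart s t b).length = _
      rw [List.length_append]
    have h2 : ((vpart s t b).map Ltr.vl).length = nn s t := by
      show (((List.range (nn s t)).map (ty s t b)).map Ltr.vl).length = nn s t
      rw [List.length_map, List.length_map, List.length_range]
    have h3 : (Bpart s t b).length = kk s * tl s t (DD t) := wlen_flat hTLN s t b (kk s)
    rw [h1, h2, h3]
  · obtain ⟨A, C, m, hW, hA⟩ := hSUB s t b i p hp
    rw [hW, List.length_append, List.length_append, (hTLN s t b i (DD t - p.length) p m).1, hA]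
    show lo s t i p + tl s t (DD t - p.length) ≤ _
    omega

end Pool.Agent.H51.ERA
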